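import Pool.Agent.Lib.MP_defcf3_al.FR.NDefs

/-! Module N-RC: the restriction of the corestriction of a cup product is the product of its conjugates. -/

set_option autoImplicit false

namespace Pool.Agent.Lib.MP_defcf3_al.FR.H28

open BR7 BRP

universe u

section

variable {G A : Type u} [Group G] [TopologicalSpace G] [IsTopologicalGroup G] [CommGroup A]
  [MulDistribMulAction G A]

omit [IsTopologicalGroup G] in
/-- A character of H is invariant under conjugation by elements of H. -/
theorem psi_conj {H : Subgroup G} {n : ℕ} {ψ : G → ZMod n} (hψ : NChar H n ψ) {k v : G} (hk : k ∈ H)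
    (hv : v ∈ H) : ψ (v⁻¹ * k * v) = ψ k := by
  have h1 : ψ 1 = 0 := by
    have := hψ.add 1 H.one_mem 1 H.one_mem
    rw [mul_one] at this
    exact left_eq_add.mp this
  have h2 : ψ v⁻¹ + ψ v = 0 := by
    rw [← hψ.add _ (H.inv_mem hv) _ hv, inv_mul_cancel, h1]
  rw [hψ.add _ (H.mul_mem (H.inv_mem hv) hk) _ hv, hψ.add _ (H.inv_mem hv) _ hk,
    add_right_comm, h2, zero_add]

omit [TopologicalSpace G] [IsTopologicalGroup G] in
/-- An element of a normal subgroup acts trivially on the cosets. -/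
theorem smul_coset {H : Subgroup G} (hN : H.Normal) (g : G) (hg : g ∈ H) (x : G ⧸ H) : g • x = x := by
  induction x using QuotientGroup.induction_on with
  | H a =>
    change ((g * a : G) : G ⧸ H) = (a : G ⧸ H)
    rw [eq_comm, QuotientGroup.eq]
    have := hN.conj_mem g hg a⁻¹
    rw [inv_inv] at this
    rw [← mul_assoc]
    exact this

end

/-- Module N-RC. -/
theorem rc : StRC.{u} := by
  intro G A _ _ _ _ _ hA H _ n _ ψ hψ f hf hB γ d hH huniq
  obtain ⟨b, hb, e⟩ := hB
  refine ⟨fun g => b g, hb.comp_continuous continuous_subtype_val, fun g h => ?_⟩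
  have e1 := e g h
  let c : G → A := fun a => (a • f) ^ carry n (ψ (a⁻¹ * g * a)) (ψ (a⁻¹ * h * a))
  have hmem : ∀ (a : G) (k : H), a⁻¹ * k * a ∈ H := fun a k => by
    have := hψ.normal.conj_mem k k.2 a⁻¹
    rwa [inv_inv] at this
  have hc : ∀ a v : G, v ∈ H → c (a * v) = c a := by
    intro a v hv
    have e2 : ∀ k : H, ψ ((a * v)⁻¹ * k * (a * v)) = ψ (a⁻¹ * k * a) := fun k => by
      rw [← psi_conj hψ (hmem a k) hv]
      congr 1
      group
    change ((a * v) • f) ^ carry n (ψ ((a * v)⁻¹ * g * (a * v))) (ψ ((a * v)⁻¹ * h * (a * v))) = _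
    rw [e2 g, e2 h, mul_smul, hf v hv]
  have h1 : corN H n f ψ g h = ∏ x : G ⧸ H, c (Quotient.out x) := by
    unfold corN gcup
    refine Finset.prod_congr rfl fun x _ => ?_
    rw [smul_coset hψ.normal _ (H.mul_mem g.2 h.2) x, smul_coset hψ.normal _ h.2 x]
    dsimp only
    rw [smul_coset hψ.normal _ h.2 x, smul_coset hψ.normal _ g.2 x]
  have hbij : Function.Bijective (fun i : Fin d => ((γ ^ (i : ℕ) : G) : G ⧸ H)) := by
    constructor
    · intro i j hij
      have hij' : (γ ^ (i : ℕ))⁻¹ * γ ^ (j : ℕ) ∈ H := QuotientGroup.eq.mp hij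
      have hjj : (γ ^ (j : ℕ))⁻¹ * γ ^ (j : ℕ) ∈ H := by
        rw [inv_mul_cancel]
        exact H.one_mem
      obtain ⟨k, _, hk⟩ := huniq (γ ^ (j : ℕ))
      rw [hk i hij', hk j hjj]
    · intro x
      induction x using QuotientGroup.induction_on with
      | H a =>
        obtain ⟨i, hi, _⟩ := huniq a
        exact ⟨i, QuotientGroup.eq.mpr hi⟩
  have h2 : ∏ i : Fin d, c (γ ^ (i : ℕ)) = ∏ x : G ⧸ H, c (Quotient.out x) := by
    refine Fintype.prod_bijective _ hbij _ _ fun i => ?_
    obtain ⟨v, hv⟩ := QuotientGroup.mk_out_eq_mul H (γ ^ (i : ℕ))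
    have := hc (γ ^ (i : ℕ)) v v.2
    rw [← hv] at this
    exact this.symm
  have h3 : (∏ i : Fin d, conjC H (γ ^ (i : ℕ)) (hH i) (cup n f (fun k : H => ψ k))) g h =
      ∏ i : Fin d, c (γ ^ (i : ℕ)) := by
    rw [Finset.prod_apply, Finset.prod_apply]
    refine Finset.prod_congr rfl fun i _ => ?_
    change γ ^ (i : ℕ) • (f ^ carry n _ _) = _
    rw [smul_pow']
  rw [h3, h2, ← h1, e1]
  rfl

end Pool.Agent.Lib.MP_defcf3_al.FR.H28
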